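import Mathlib
import Pool.Agent.Helper952.Hedge

set_option autoImplicit false

namespace Pool.Agent.Results.MP_abe51b_gt.AnalyticPair

/-- The second derivative `D²F(u)(v, w)` of a function `F` on `ℝ³`. -/
noncomputable def D2 (F : (Fin 3 → ℝ) → ℝ) (u v w : Fin 3 → ℝ) : ℝ :=
  fderiv ℝ (fderiv ℝ F) u v w

/-- `u` is a point of the unit sphere and `a, b` is an orthonormal frame of the tangent plane `u^⊥`. -/
def IsFrame (u a b : Fin 3 → ℝ) : Prop :=
  ∑ i, u i * u i = 1 ∧ ∑ i, a i * a i = 1 ∧ ∑ i, b i * b i = 1 ∧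
    ∑ i, u i * a i = 0 ∧ ∑ i, u i * b i = 0 ∧ ∑ i, a i * b i = 0

/-- The mixed curvature function `R_(f,g)(u)` of the hedgehogs with support functions `f = F|S²`,
`g = G|S²` (`F`, `G` the positively 1-homogeneous extensions), computed in the orthonormal frame
`a, b` of `u^⊥`: the mixed discriminant of the restrictions of `D²F(u)`, `D²G(u)` to `u^⊥`
(these restrictions are `∇²f(u) + f(u) Id` and `∇²g(u) + g(u) Id`).
For `G = F` it is the curvature function `R_f(u) = det (∇²f(u) + f(u) Id)`. -/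
noncomputable def mixedR (F G : (Fin 3 → ℝ) → ℝ) (u a b : Fin 3 → ℝ) : ℝ :=
  (D2 F u a a * D2 G u b b + D2 F u b b * D2 G u a a
    - D2 F u a b * D2 G u b a - D2 F u b a * D2 G u a b) / 2

open Pool.Agent.Helper952.Hedge

theorem D2F {u : Fin 3 → ℝ} (hu : u ≠ 0) (v w : Fin 3 → ℝ) :
    D2 FF u v w = ((VV u - u 0 ^ 2 * AA u) * v 0 + (-(u 0 * u 1 * AA u)) * v 1 + (u 0 * u 2 * BB u) * v 2) * w 0
      + ((-(u 0 * u 1 * AA u)) * v 0 + (VV u - u 1 ^ 2 * AA u) * v 1 + (u 1 * u 2 * BB u) * v 2) * w 1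
      + ((u 0 * u 2 * BB u) * v 0 + (u 1 * u 2 * BB u) * v 1 + (-((u 0 ^ 2 + u 1 ^ 2) * BB u)) * v 2) * w 2 :=
  hess hu (fun y hy => hp_FF hy) (hp_F0 hu) (hp_F1 hu) (hp_F2 hu) v w

theorem D2G {u : Fin 3 → ℝ} (hu : u ≠ 0) (v w : Fin 3 → ℝ) :
    D2 GG u v w = (G00 u * v 0 + G01 u * v 1 + G02 u * v 2) * w 0
      + (G01 u * v 0 + G11 u * v 1 + G12 u * v 2) * w 1
      + (G02 u * v 0 + G12 u * v 1 + G22 u * v 2) * w 2 :=
  hess hu (fun y hy => hp_GG hy) (hp_G0 hu) (hp_G1 hu) (hp_G2 hu) v w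

theorem frame_ne {u a b : Fin 3 → ℝ} (h : IsFrame u a b) : u ≠ 0 := by
  rintro rfl
  have := h.1
  simp at this

/-- **Two analytic hedgehogs, both flexible.** There are positively 1-homogeneous functions `F`, `G` on
`ℝ³`, both real-analytic off the origin, `F` even and invariant under rotations about the third axis,
`G` odd, with `R_(f,g) = 0` on the whole unit sphere, while neither `R_f` nor `R_g` vanishes
identically. -/
theorem result :
    ∃ F G : (Fin 3 → ℝ) → ℝ,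
      (∀ t : ℝ, 0 < t → ∀ x, F (t • x) = t * F x) ∧
      (∀ t : ℝ, 0 < t → ∀ x, G (t • x) = t * G x) ∧
      AnalyticOnNhd ℝ F {x | x ≠ 0} ∧
      AnalyticOnNhd ℝ G {x | x ≠ 0} ∧
      (∀ x, F (-x) = F x) ∧
      (∀ x, G (-x) = -G x) ∧
      (∀ x y : Fin 3 → ℝ, x 0 ^ 2 + x 1 ^ 2 = y 0 ^ 2 + y 1 ^ 2 → x 2 = y 2 → F x = F y) ∧
      (∀ u a b, IsFrame u a b → mixedR F G u a b = 0) ∧
      (∃ u a b, IsFrame u a b ∧ mixedR F F u a b ≠ 0) ∧
      (∃ u a b, IsFrame u a b ∧ mixedR G G u a b ≠ 0) := by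
  have hfr : IsFrame ![0, 0, 1] ![1, 0, 0] ![0, 1, 0] := by
    simp [IsFrame, Fin.sum_univ_three]
  have hu1 : (![0, 0, 1] : Fin 3 → ℝ) ≠ 0 := frame_ne hfr
  refine ⟨FF, GG, fun t ht x => FF_smul ht x, fun t ht x => GG_smul ht x, FF_analytic, GG_analytic,
    ?_, ?_, ?_, ?_, ?_, ?_⟩
  · intro x
    have h1 : rr (-x) = rr x := by simp [rr]
    simp only [FF, h1, Pi.neg_apply]
    ring
  · intro x
    have h1 : qq (-x) = qq x := by simp [qq]
    simp only [GG, h1, Pi.neg_apply]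
    ring
  · intro x y h1 h2
    have h3 : rr x = rr y := by simp only [rr, h1, h2]
    simp only [FF, h3, h2]
  · intro u a b h
    have hu := frame_ne h
    have hs : u 0 ^ 2 + u 1 ^ 2 + u 2 ^ 2 = 1 := by
      have := h.1
      rw [Fin.sum_univ_three] at this
      linarith
    have e00 := A00 hs
    have e11 := A11 hs
    have e22 := A22 hs
    have e01 := A01 hs
    have e02 := A02 hs
    have e12 := A12 hs
    unfold mixedR
    simp only [D2F hu, D2G hu]
    generalize VV u - u 0 ^ 2 * AA u = m00 at *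
    generalize VV u - u 1 ^ 2 * AA u = m11 at *
    generalize -((u 0 ^ 2 + u 1 ^ 2) * BB u) = m22 at *
    generalize -(u 0 * u 1 * AA u) = m01 at *
    generalize u 0 * u 2 * BB u = m02 at *
    generalize u 1 * u 2 * BB u = m12 at *
    generalize G00 u = n00 at *
    generalize G11 u = n11 at *
    generalize G22 u = n22 at *
    generalize G01 u = n01 at *
    generalize G02 u = n02 at *
    generalize G12 u = n12 at *
    generalize a 0 = a0 at *
    generalize a 1 = a1 at *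
    generalize a 2 = a2 at *
    generalize b 0 = b0 at *
    generalize b 1 = b1 at *
    generalize b 2 = b2 at *
    linear_combination (1 / 2) * (a1 * b2 - a2 * b1) ^ 2 * e00 + (1 / 2) * (a2 * b0 - a0 * b2) ^ 2 * e11
      + (1 / 2) * (a0 * b1 - a1 * b0) ^ 2 * e22
      - (a1 * b2 - a2 * b1) * (a2 * b0 - a0 * b2) * e01
      + (a1 * b2 - a2 * b1) * (a0 * b1 - a1 * b0) * e02
      + (a2 * b0 - a0 * b2) * (a0 * b1 - a1 * b0) * e12
  · refine ⟨_, _, _, hfr, ?_⟩
    unfold mixedR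
    simp only [D2F hu1]
    have hr : rr ![0, 0, 1] = 1 := by simp [rr]
    simp [VV, AA, BB, hr]
  · refine ⟨_, _, _, hfr, ?_⟩
    unfold mixedR
    simp only [D2G hu1]
    simp [G00, G01, G02, G11, G12, G22, qq]
    norm_num

end Pool.Agent.Results.MP_abe51b_gt.AnalyticPair
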